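import Pool.Agent.H42.L1C.CFR

/-!
# Row CFL of the board `l1c_modules`: factorisation on the left
-/

set_option autoImplicit false

open Filter Topology MulOpposite

namespace Pool.Agent.H42.L1C

open Pool.Agent.H14.L1

theorem pf_CFL : T_CFL := by
  intro A _ _ _ _ c hc hcomm r hr W V hW hV hrW hcV
  have hop : Continuous (op : A → Aᵐᵒᵖ) := continuous_op
  have hunop : Continuous (unop : Aᵐᵒᵖ → A) := continuous_unop
  let f : Aᵐᵒᵖ →ₗ[ℂ] A := ((opLinearEquiv ℂ).symm : Aᵐᵒᵖ ≃ₗ[ℂ] A)
  have hf : ∀ x, f x = unop x := fun x => rfl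
  obtain ⟨y, hy, b, hb, h⟩ := pf_CFR Aᵐᵒᵖ (fun n => op (c n))
    (fun n => by rw [MulOpposite.norm_op]; exact hc n)
    (fun m n => by rw [← op_mul, ← op_mul, hcomm])
    (op r)
    (by
      have h1 : Tendsto (fun k => op (c k * r)) atTop (𝓝 (op 0)) :=
        (hop.tendsto _).comp hr
      simpa [op_mul] using h1)
    (W.comap f) (V.comap f)
    (hW.preimage hunop) (hV.preimage hunop)
    (fun a => by
      show unop (op r * a) ∈ W
      rw [unop_mul, unop_op]
      exact hrW _)
    (fun n => by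
      show unop (1 - op (c n)) ∈ V
      rw [unop_sub, unop_one, unop_op]
      exact hcV n)
  refine ⟨unop y, hy, unop b, hb, ?_⟩
  have h2 := congrArg unop h
  rw [unop_op, unop_mul] at h2
  exact h2

end Pool.Agent.H42.L1C
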