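import Pool.Agent.H14.L1.Targets

/-!
# Row CFR of the board `l1c_modules`: factorisation on the right
-/

set_option autoImplicit false

open Filter Topology

namespace Pool.Agent.H42.L1C

open Pool.Agent.H14.L1

theorem geo_sum (n : ℕ) : ∑ i ∈ Finset.range n, ((1 : ℝ) / 2) ^ (i + 1) = 1 - (1 / 2) ^ n := by
  induction n with
  | zero => simp
  | succ n ih =>
    rw [Finset.sum_range_succ, ih]
    ring

theorem pf_CFR : T_CFR := by
  intro A _ _ _ _ d hd hcomm l hl W V hW hV hlW hdV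
  -- the choice of the indices
  have hch : ∀ i : ℕ, ∃ k, ‖l * d k‖ ≤ ((1 : ℝ) / 4) ^ (i + 1) := by
    intro i
    have h1 : Tendsto (fun k => ‖l * d k‖) atTop (𝓝 0) := by
      have := hl.norm
      simpa using this
    have h2 : (0 : ℝ) < ((1 : ℝ) / 4) ^ (i + 1) := by positivity
    have h3 := (h1.eventually_lt_const h2).exists
    obtain ⟨k, hk⟩ := h3
    exact ⟨k, hk.le⟩
  choose k hk using hch
  set e : ℕ → A := fun i => d (k i) with he
  have he1 : ∀ i, ‖e i‖ ≤ 1 := fun i => hd _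
  have hec : ∀ i j, Commute (e i) (e j) := fun i j => hcomm _ _
  set S : ℕ → A := fun n => ∑ i ∈ Finset.range n, (((1 : ℝ) / 2) ^ (i + 1) : ℝ) • e i with hS
  have hSs : ∀ n, S (n + 1) = S n + (((1 : ℝ) / 2) ^ (n + 1) : ℝ) • e n := by
    intro n
    simp only [hS]
    rw [Finset.sum_range_succ]
  have hSn : ∀ n, ‖S n‖ ≤ 1 - (1 / 2) ^ n := by
    intro n
    rw [← geo_sum n]
    refine (norm_sum_le _ _).trans (Finset.sum_le_sum fun i _ => ?_)
    rw [norm_smul, Real.norm_of_nonneg (by positivity)]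
    exact mul_le_of_le_one_right (by positivity) (he1 i)
  have hpow : ∀ n : ℕ, (0 : ℝ) < (1 / 2) ^ n := fun n => by positivity
  have hSlt : ∀ n, ‖S n‖ < 1 := fun n => by
    have := hSn n
    have := hpow n
    linarith
  have hSe : ∀ n i, Commute (S n) (e i) := by
    intro n i
    simp only [hS]
    exact Commute.sum_left _ _ _ fun j _ => (hec j i).smul_left _
  have hSS : ∀ n m, Commute (S n) (S m) := by
    intro n m
    have h : Commute (S n) (∑ i ∈ Finset.range m, (((1 : ℝ) / 2) ^ (i + 1) : ℝ) • e i) :=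
      Commute.sum_right _ _ _ fun j _ => (hSe n j).smul_right _
    exact h
  -- the units
  set b : ℕ → Aˣ := fun n => Units.oneSub (S n) (hSlt n) with hb
  have hbv : ∀ n, ((b n : Aˣ) : A) = 1 - S n := fun n => rfl
  set u : ℕ → A := fun n => ((b n)⁻¹ : Aˣ) with hu
  have hub : ∀ n, u n * (1 - S n) = 1 := fun n => (b n).inv_mul
  have hbu : ∀ n, (1 - S n) * u n = 1 := fun n => (b n).mul_inv
  have hun : ∀ n, ‖u n‖ ≤ 2 ^ n := by
    intro n
    have h1 : u n = 1 + S n * u n := by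
      have := hbu n
      rw [sub_mul, one_mul] at this
      rw [← this]
      abel
    have h2 : ‖u n‖ ≤ 1 + ‖S n‖ * ‖u n‖ := by
      calc ‖u n‖ = ‖1 + S n * u n‖ := by rw [← h1]
        _ ≤ ‖(1 : A)‖ + ‖S n * u n‖ := norm_add_le _ _
        _ ≤ 1 + ‖S n‖ * ‖u n‖ := by
          rw [norm_one]
          exact add_le_add le_rfl (norm_mul_le _ _)
    have h3 := hSn n
    have h4 := norm_nonneg (u n)
    have h5 : (1 / 2 : ℝ) ^ n * ‖u n‖ ≤ 1 := by nlinarith
    have h6 : (2 : ℝ) ^ n * (1 / 2) ^ n = 1 := by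
      rw [← mul_pow]
      norm_num
    calc ‖u n‖ = (2 : ℝ) ^ n * ((1 / 2) ^ n * ‖u n‖) := by rw [← mul_assoc, h6, one_mul]
      _ ≤ 2 ^ n * 1 := mul_le_mul_of_nonneg_left h5 (by positivity)
      _ = 2 ^ n := mul_one _
  have hue : ∀ n i, Commute (u n) (e i) := by
    intro n i
    have h1 : Commute ((b n : Aˣ) : A) (e i) := by
      rw [hbv]
      exact (Commute.one_left _).sub_left (hSe n i)
    exact h1.units_inv_left
  -- the sequence `y`
  have hdiff : ∀ n, l * u (n + 1) - l * u n =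
      ((1 / 2 : ℝ) ^ (n + 1) : ℝ) • (l * e n * (u (n + 1) * u n)) := by
    intro n
    have h1 : u (n + 1) - u n = u (n + 1) * ((1 - S n) - (1 - S (n + 1))) * u n := by
      rw [mul_sub, sub_mul, hub, mul_assoc, hbu]
      noncomm_ring
    have h2 : (1 - S n) - (1 - S (n + 1)) = (((1 : ℝ) / 2) ^ (n + 1) : ℝ) • e n := by
      rw [hSs]
      abel
    rw [← mul_sub, h1, h2, mul_smul_comm, smul_mul_assoc, mul_smul_comm, (hue (n + 1) n).eq]
    congr 1
    noncomm_ring
  have hyC : CauchySeq (fun n => l * u n) := by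
    apply cauchySeq_of_le_geometric (1 / 2) 1 (by norm_num)
    intro n
    rw [dist_comm, dist_eq_norm, hdiff, norm_smul, Real.norm_of_nonneg (by positivity)]
    have h1 : ‖l * e n * (u (n + 1) * u n)‖ ≤ (1 / 4) ^ (n + 1) * (2 ^ (n + 1) * 2 ^ n) := by
      refine (norm_mul_le _ _).trans ?_
      apply mul_le_mul (hk n) _ (norm_nonneg _) (by positivity)
      refine (norm_mul_le _ _).trans ?_
      exact mul_le_mul (hun _) (hun _) (norm_nonneg _) (by positivity)
    calc (1 / 2 : ℝ) ^ (n + 1) * ‖l * e n * (u (n + 1) * u n)‖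
        ≤ (1 / 2) ^ (n + 1) * ((1 / 4) ^ (n + 1) * (2 ^ (n + 1) * 2 ^ n)) :=
          mul_le_mul_of_nonneg_left h1 (by positivity)
      _ = (1 / 4) * (1 / 2) ^ n * ((1 / 4) ^ n * (2 ^ n * 2 ^ n)) := by ring
      _ = (1 / 4) * (1 / 2) ^ n := by
        have h2 : (1 / 4 : ℝ) ^ n * (2 ^ n * 2 ^ n) = 1 := by
          rw [← mul_pow, ← mul_pow]
          norm_num
        rw [h2, mul_one]
      _ ≤ 1 * (1 / 2) ^ n := by
        have := hpow n
        linarith
  have hSC : CauchySeq S := by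
    apply cauchySeq_of_le_geometric (1 / 2) 1 (by norm_num)
    intro n
    rw [dist_comm, dist_eq_norm, hSs, add_sub_cancel_left, norm_smul,
      Real.norm_of_nonneg (by positivity)]
    calc (1 / 2 : ℝ) ^ (n + 1) * ‖e n‖ ≤ (1 / 2) ^ (n + 1) * 1 :=
          mul_le_mul_of_nonneg_left (he1 n) (by positivity)
      _ ≤ 1 * (1 / 2) ^ n := by
        rw [pow_succ]
        have := hpow n
        linarith
  obtain ⟨y, hy⟩ := cauchySeq_tendsto_of_complete hyC
  obtain ⟨s, hs⟩ := cauchySeq_tendsto_of_complete hSC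
  have hhalf : Tendsto (fun n : ℕ => ((1 / 2 : ℝ) ^ n : ℝ) • (1 : A)) atTop (𝓝 0) := by
    have h1 : Tendsto (fun n : ℕ => (1 / 2 : ℝ) ^ n) atTop (𝓝 0) :=
      tendsto_pow_atTop_nhds_zero_of_lt_one (by norm_num) (by norm_num)
    have h2 := h1.smul_const (1 : A)
    simpa using h2
  refine ⟨y, hW.mem_of_tendsto hy (Eventually.of_forall fun n => hlW _), 1 - s, ?_, ?_⟩
  · have h1 : Tendsto (fun n => (1 - S n) - ((1 / 2 : ℝ) ^ n : ℝ) • (1 : A)) atTop
        (𝓝 (1 - s - 0)) := (hs.const_sub 1).sub hhalf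
    rw [sub_zero] at h1
    apply hV.mem_of_tendsto h1 (Eventually.of_forall fun n => ?_)
    have h2 : (1 - S n) - ((1 / 2 : ℝ) ^ n : ℝ) • (1 : A) =
        ∑ i ∈ Finset.range n, (((1 : ℝ) / 2) ^ (i + 1) : ℝ) • (1 - e i) := by
      simp only [smul_sub, Finset.sum_sub_distrib, hS]
      rw [← Finset.sum_smul, geo_sum, sub_smul, one_smul]
      abel
    show (1 - S n) - ((1 / 2 : ℝ) ^ n : ℝ) • (1 : A) ∈ V
    rw [h2]
    refine V.sum_mem fun i _ => ?_
    have h3 : (((1 : ℝ) / 2) ^ (i + 1) : ℝ) • (1 - e i) =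
        ((((1 : ℝ) / 2) ^ (i + 1) : ℝ) : ℂ) • (1 - e i) := rfl
    rw [h3]
    exact V.smul_mem _ (hdV _)
  · have h1 : Tendsto (fun n => l * u n * (1 - S n)) atTop (𝓝 (y * (1 - s))) :=
      hy.mul (hs.const_sub 1)
    have h2 : (fun n => l * u n * (1 - S n)) = fun _ => l := by
      funext n
      rw [mul_assoc, hub, mul_one]
    rw [h2] at h1
    exact tendsto_nhds_unique tendsto_const_nhds h1

end Pool.Agent.H42.L1C
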